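import Mathlib
import Pool.Agent.H8.HomShrink

set_option autoImplicit false

universe u

open Ordinal Cardinal Set

namespace Pool.Agent.Results.MP_e86704_lc.AllRealizable

/-- `(A, B)` is a cut of the chain `S`: nonempty sets with `A < B`, `A` without largest element,
`B` without smallest element, and either `S = A ∪ B` or `S = A ∪ {r} ∪ B` with `r` lying between
`A` and `B`. -/
structure IsCut {S : Type u} [LinearOrder S] (A B : Set S) : Prop where
  left_nonempty : A.Nonempty
  right_nonempty : B.Nonempty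
  left_lt_right : ∀ a ∈ A, ∀ b ∈ B, a < b
  left_no_largest : ∀ a ∈ A, ∃ a' ∈ A, a < a'
  right_no_smallest : ∀ b ∈ B, ∃ b' ∈ B, b' < b
  cover : A ∪ B = Set.univ ∨
    ∃ r : S, (∀ a ∈ A, a < r) ∧ (∀ b ∈ B, r < b) ∧ A ∪ {r} ∪ B = Set.univ

/-- `C(S)`: the set of characters of all cuts `(A, B)` of `S`, i.e. of all pairs of ordinals
`(α, β)` such that the cofinality of `A` is `ℵ_α` and the coinitiality of `B` (the cofinality of
the reversed order of `B`) is `ℵ_β`. -/
def cutCharacters (S : Type u) [LinearOrder S] : Set (Ordinal.{u} × Ordinal.{u}) :=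
  {p | ∃ A B : Set S, IsCut A B ∧ Order.cof (↥A) = ℵ_ p.1 ∧ Order.cof (↥B)ᵒᵈ = ℵ_ p.2}

/-- any two nondegenerate closed bounded intervals are order-isomorphic -/
def TwoHomogeneous (S : Type u) [LinearOrder S] : Prop :=
  ∀ a b c d : S, a < b → c < d → Nonempty (Set.Icc a b ≃o Set.Icc c d)

/-- `C` is realizable (relative to `X`): some nontrivial dense 2-homogeneous chain `S` satisfies
`C(S) ∩ X² = C`. -/
def Realizable (X : Set Ordinal.{u}) (C : Set (Ordinal.{u} × Ordinal.{u})) : Prop :=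
  ∃ (S : Type u) (_ : LinearOrder S), Nontrivial S ∧ (∀ a b : S, a < b → ∃ x, a < x ∧ x < b) ∧
    TwoHomogeneous S ∧ cutCharacters S ∩ X ×ˢ X = C

open Pool.Agent.H8Hom in
theorem all_realizable (X : Set Ordinal.{u}) (hX : BddAbove X)
    (hreg : ∀ x ∈ X, (ℵ_ x).IsRegular) (C : Set (Ordinal.{u} × Ordinal.{u}))
    (hC : C ⊆ X ×ˢ X) : Realizable X C := by
  obtain ⟨c, P, hlt⟩ := exists_par X hX hreg C hC
  refine ⟨Shrink.{u} (T c C), inferInstance, nontriv P, dense' P, ?_, ?_⟩
  · intro a b d e hab hde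
    exact two_hom' P a b d e hab hde
  · ext ⟨α, β⟩
    constructor
    · rintro ⟨⟨A, B, h1, h2, h3⟩, hα, hβ⟩
      exact forward' P ⟨h1.left_nonempty, h1.right_nonempty, h1.left_lt_right,
        h1.left_no_largest, h1.right_no_smallest, h1.cover⟩ (hlt α hα) (hlt β hβ) h2 h3
    · intro hp
      obtain ⟨A, B, h1, h2, h3⟩ := converse' P hp
      exact ⟨⟨A, B, ⟨h1.neA, h1.neB, h1.lt, h1.noMax, h1.noMin, h1.cover⟩, h2, h3⟩, hC hp⟩

/-- Q1: for every bounded set `X` of indices of regular cardinals, the realizable subsets of `X²`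
are all the subsets of `X²`.  Q2: for `X = ω` the set of realizable subsets of `ω × ω` is
uncountable. -/
theorem result :
    (∀ X : Set Ordinal.{u}, BddAbove X → (∀ x ∈ X, (ℵ_ x).IsRegular) →
      ∀ C : Set (Ordinal.{u} × Ordinal.{u}), C ⊆ X ×ˢ X → Realizable X C) ∧
    ¬ {C : Set (Ordinal.{u} × Ordinal.{u}) | C ⊆ Set.Iio ω ×ˢ Set.Iio ω ∧
        Realizable (Set.Iio (ω : Ordinal.{u})) C}.Countable := by
  refine ⟨all_realizable, ?_⟩
  have hreg : ∀ x ∈ Set.Iio (ω : Ordinal.{u}), (ℵ_ x).IsRegular := by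
    intro x hx
    obtain ⟨n, rfl⟩ := Ordinal.lt_omega0.mp hx
    cases n with
    | zero =>
      rw [Nat.cast_zero, Cardinal.aleph_zero]
      exact Cardinal.isRegular_aleph0
    | succ n =>
      have := Cardinal.isRegular_aleph_add_one (n : Ordinal.{u})
      rw [Nat.cast_succ]
      exact this
  intro hcount
  let f : Set ℕ → Set (Ordinal.{u} × Ordinal.{u}) := fun s =>
    (fun n : ℕ => ((n : Ordinal.{u}), (0 : Ordinal.{u}))) '' s
  have hinj : Function.Injective f := by
    apply Set.image_injective.mpr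
    intro m n hmn
    have := congrArg Prod.fst hmn
    simpa using this
  have hmem : ∀ s, f s ∈ {C : Set (Ordinal.{u} × Ordinal.{u}) | C ⊆ Set.Iio ω ×ˢ Set.Iio ω ∧
        Realizable (Set.Iio (ω : Ordinal.{u})) C} := by
    intro s
    have hsub : f s ⊆ Set.Iio ω ×ˢ Set.Iio ω := by
      rintro _ ⟨n, _, rfl⟩
      exact ⟨Ordinal.natCast_lt_omega0 n, Ordinal.omega0_pos⟩
    exact ⟨hsub, all_realizable _ ⟨ω, fun x hx => le_of_lt hx⟩ hreg _ hsub⟩
  have h1 : (Set.univ : Set (Set ℕ)).Countable := by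
    have := hcount.preimage_of_injOn (f := f) (hinj.injOn)
    refine this.mono ?_
    intro s _
    exact hmem s
  have h2 : Countable (Set ℕ) := Set.countable_univ_iff.mp h1
  exact absurd h2 (by
    rw [← Cardinal.mk_le_aleph0_iff, not_le, Cardinal.mk_set, Cardinal.mk_nat]
    exact Cardinal.cantor _)

end Pool.Agent.Results.MP_e86704_lc.AllRealizable
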